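import Pool.Agent.H85.LK.Targets

/-! SCL: scaling of the eigenvalues (board lk_modules, MP_8f7db2_an). -/

set_option autoImplicit false

open MeasureTheory Metric Set ProbabilityTheory
open scoped ENNReal Pointwise

namespace Pool.Agent.H3.LK

open Pool.Agent.H85.LK

theorem tsupport_scale {N : ℕ} {ρ : ℝ} (hρ : ρ ≠ 0) (v : E N → ℝ) :
    tsupport (fun x => v (ρ⁻¹ • x)) = (fun x => ρ⁻¹ • x) ⁻¹' tsupport v := by
  have h1 := (Homeomorph.smulOfNeZero (α := E N) ρ⁻¹ (inv_ne_zero hρ)).preimage_closure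
    (Function.support v)
  exact h1.symm

theorem int_scale_inv {N : ℕ} {ρ : ℝ} (hρ : 0 < ρ) (f : E N → ℝ) :
    ∫ x, f (ρ⁻¹ • x) = ρ ^ N * ∫ x, f x := by
  rw [Measure.integral_comp_smul volume f ρ⁻¹, finrank_euclideanSpace_fin, inv_pow, inv_inv,
    abs_of_pos (by positivity), smul_eq_mul]

theorem adm_scale {N n : ℕ} {ρ : ℝ} (hρ : 0 < ρ) {Ω : Set (E N)} {c : ℝ} (hc : c ∈ adm N n Ω) :
    c / ρ ^ 2 ∈ adm N n ((fun x => ρ⁻¹ • x) ⁻¹' Ω) := by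
  obtain ⟨V, hV, h⟩ := hc
  have hinj : Function.Injective (LinearMap.funLeft ℝ ℝ (fun x : E N => ρ⁻¹ • x)) := by
    apply LinearMap.funLeft_injective_of_surjective
    intro x
    exact ⟨ρ • x, by simp only []; rw [smul_smul, inv_mul_cancel₀ hρ.ne', one_smul]⟩
  refine ⟨V.map (LinearMap.funLeft ℝ ℝ (fun x : E N => ρ⁻¹ • x)), ?_, ?_⟩
  · rw [← hV]
    exact ((Submodule.equivMapOfInjective _ hinj V).finrank_eq).symm
  · rintro w ⟨v, hv, rfl⟩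
    obtain ⟨h1, h2, h3, h4⟩ := h v hv
    have hw : (LinearMap.funLeft ℝ ℝ (fun x : E N => ρ⁻¹ • x)) v = fun x => v (ρ⁻¹ • x) := rfl
    rw [hw]
    have hts := tsupport_scale hρ.ne' v
    refine ⟨h1.comp (contDiff_const_smul ρ⁻¹), ?_, ?_, ?_⟩
    · unfold HasCompactSupport
      rw [hts]
      exact (Homeomorph.smulOfNeZero (α := E N) ρ⁻¹ (inv_ne_zero hρ.ne')).isCompact_preimage.2 h2
    · rw [hts]
      exact preimage_mono h3
    · have h5 : ∀ x, ‖fderiv ℝ (fun x => v (ρ⁻¹ • x)) x‖ ^ 2 =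
          (ρ⁻¹) ^ 2 * ‖fderiv ℝ v (ρ⁻¹ • x)‖ ^ 2 := by
        intro x
        rw [fderiv_comp_smul, norm_smul, mul_pow, Real.norm_eq_abs, sq_abs]
      simp_rw [h5]
      rw [integral_const_mul, int_scale_inv hρ (fun x => ‖fderiv ℝ v x‖ ^ 2),
        int_scale_inv hρ (fun x => v x ^ 2)]
      have h6 : ρ⁻¹ ^ 2 * (ρ ^ N * ∫ x, ‖fderiv ℝ v x‖ ^ 2) ≤
          ρ⁻¹ ^ 2 * (ρ ^ N * (c * ∫ x, v x ^ 2)) := by
        apply mul_le_mul_of_nonneg_left _ (by positivity)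
        exact mul_le_mul_of_nonneg_left h4 (by positivity)
      refine h6.trans (le_of_eq ?_)
      rw [inv_pow]
      ring

theorem adm_eq {N n : ℕ} {ρ : ℝ} (hρ : 0 < ρ) (Ω : Set (E N)) :
    adm N n ((fun x => ρ⁻¹ • x) ⁻¹' Ω) = (ρ ^ 2)⁻¹ • adm N n Ω := by
  ext d
  rw [Set.mem_smul_set]
  constructor
  · intro hd
    refine ⟨d * ρ ^ 2, ?_, ?_⟩
    · have h1 := adm_scale (inv_pos.2 hρ) hd
      have h2 : (fun x : E N => (ρ⁻¹)⁻¹ • x) ⁻¹' ((fun x => ρ⁻¹ • x) ⁻¹' Ω) = Ω := by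
        ext x
        simp only [Set.mem_preimage, inv_inv]
        rw [smul_smul, inv_mul_cancel₀ hρ.ne', one_smul]
      rw [h2, inv_pow, div_inv_eq_mul] at h1
      exact h1
    · rw [smul_eq_mul]
      field_simp
  · rintro ⟨c, hc, rfl⟩
    have h1 := adm_scale hρ hc
    rwa [div_eq_inv_mul] at h1

theorem lam_scale {N n : ℕ} {ρ : ℝ} (hρ : 0 < ρ) (Ω : Set (E N)) :
    lam N n ((fun x => ρ⁻¹ • x) ⁻¹' Ω) = lam N n Ω / ρ ^ 2 := by
  unfold lam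
  rw [adm_eq hρ, Real.sInf_smul_of_nonneg (by positivity), smul_eq_mul, div_eq_inv_mul]

theorem pf_SCL : T_SCL := by
  intro N n ρ hρ
  refine ⟨fun Ω c hc => adm_scale hρ hc, lam_scale hρ, ?_⟩
  rw [← lam_scale hρ]
  congr 1
  ext x
  rw [Set.mem_preimage, mem_ball_zero_iff, mem_ball_zero_iff, norm_smul, norm_inv,
    Real.norm_eq_abs, abs_of_pos hρ, inv_mul_lt_iff₀ hρ, mul_one]

end Pool.Agent.H3.LK
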