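import Pool.Agent.H85.LK.Targets

/-! SCQ: scaling of the form Q (board lk_modules, MP_8f7db2_an). -/

set_option autoImplicit false

open MeasureTheory Metric Set ProbabilityTheory
open scoped ENNReal

namespace Pool.Agent.H3.LK

open Pool.Agent.H85.LK

theorem int_scale {N : ℕ} {ρ : ℝ} (hρ : 0 < ρ) (f : E N → ℝ) :
    ∫ x, f x = ρ ^ N * ∫ x, f (ρ • x) := by
  rw [Measure.integral_comp_smul volume f ρ, finrank_euclideanSpace_fin,
    abs_of_pos (by positivity), smul_eq_mul, ← mul_assoc, mul_inv_cancel₀ (by positivity), one_mul]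

theorem hk_scale {N : ℕ} {s ρ : ℝ} (hs : 0 < s) (hρ : 0 < ρ) (z : E N) :
    ρ ^ N * hk N s (ρ • z) = hk N (s / ρ ^ 2) z := by
  unfold hk
  have h1 : 4 * Real.pi * (s / ρ ^ 2) = 4 * Real.pi * s / ρ ^ 2 := by ring
  have h2 : (ρ ^ 2) ^ (-(N : ℝ) / 2) = (ρ ^ N)⁻¹ := by
    rw [← Real.rpow_natCast ρ 2, ← Real.rpow_mul hρ.le, ← Real.rpow_natCast ρ N,
      ← Real.rpow_neg hρ.le]
    congr 1
    push_cast
    ring
  have h3 : 0 < 4 * Real.pi * s := by positivity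
  rw [h1, Real.div_rpow h3.le (by positivity), h2, norm_smul, Real.norm_eq_abs, abs_of_pos hρ]
  have h4 : -(ρ * ‖z‖) ^ 2 / (4 * s) = -‖z‖ ^ 2 / (4 * (s / ρ ^ 2)) := by
    field_simp
  rw [h4, div_inv_eq_mul]
  ring

theorem sm_scale {N : ℕ} {s ρ : ℝ} (hs : 0 < s) (hρ : 0 < ρ) (v : E N → ℝ) (x : E N) :
    sm N s v (ρ • x) = sm N (s / ρ ^ 2) (fun x => v (ρ • x)) x := by
  unfold sm
  rw [int_scale hρ, ← integral_const_mul]
  congr 1
  funext y
  rw [← smul_sub, ← mul_assoc, hk_scale hs hρ]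

theorem pf_SCQ : T_SCQ := by
  intro N s ρ v hs hρ
  refine ⟨?_, int_scale hρ fun x => v x ^ 2⟩
  unfold Qf
  rw [int_scale hρ]
  congr 2
  funext x
  rw [sm_scale hs hρ]

end Pool.Agent.H3.LK
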